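import Mathlib
import Pool.Agent.U773.PA.Final

/-!
# Long blocks of real digits and of `p`-adic digits of algebraic numbers are never close integers

Let `x` be a real irrational algebraic number, `b ≥ 2`, `p` a prime and `y ∈ ℤ_p` a quadratic number,
for example `x = √2 ∈ ℝ` and `y = √2 ∈ ℤ_p`, `p = 7, 17, 23, 31, …`.  A block of `m` digits of `x` in
base `b` and a block of `p`-adic digits of `y` never write two integers whose distance is less than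
`b ^ ((1 - δ) m)`, when the places are `O(m)` and `m` is large.
-/

set_option autoImplicit false

namespace Pool.Agent.Results.MP_7e9a3a_nt.CommonBlocksRealPadic

/-- `W b x n m`: the integer written in base `b` by the `m` digits of `x` after the place `n`, that is
by the digits `⌊b ^ k x⌋ mod b`, `n < k ≤ n + m` -/
noncomputable def W (b : ℕ) (x : ℝ) (n m : ℕ) : ℤ := ⌊(b : ℝ) ^ (n + m) * x⌋ % (b : ℤ) ^ m

/-- `V y n m`: the integer `a_n + a_{n+1} p + … + a_{n+m-1} p ^ (m-1)` written by the `p`-adic digits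
number `n, …, n + m - 1` of `y = ∑ a_k p ^ k`.  Here `y.appr k` is the integer in
`{0, …, p ^ k - 1}` congruent to `y` modulo `p ^ k`. -/
noncomputable def V {p : ℕ} [Fact p.Prime] (y : ℤ_[p]) (n m : ℕ) : ℕ := y.appr (n + m) / p ^ n

/-- `res u D x = ⌊u x⌋ mod D`, in `{0, …, D - 1}` -/
noncomputable def res (u D : ℕ) (x : ℝ) : ℤ := ⌊(u : ℝ) * x⌋ % (D : ℤ)

/-- `SUnit S D`: the integer `D` is positive and all its prime factors lie in `S` -/
def SUnit (S : Finset ℕ) (D : ℕ) : Prop := 0 < D ∧ ∀ p : ℕ, p.Prime → p ∣ D → p ∈ S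

/-- (1) Let `p` be a prime and `y ∈ ℤ_p` with `y² = 2`, let `b ≥ 2`, `C` real and `δ > 0`.  For all
large `m` and all `n, n', m' ≤ C m`, `|W b √2 n m - V y n' m'| ≥ b ^ ((1 - δ) m)`.
(2) The same for a real irrational algebraic number `x` in place of `√2` and `y ∈ ℤ_p` with
`y² = t y - n`, where `t, n` are integers such that `z² = t z - n` has no integer root and `p` does
not divide `t² - 4 n`.
(3) Let `x` and `y` be as in (2), `S` a finite set of primes, `C` real and `ε > 0`.  For all large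
`N` and all `u, D, n, m` such that `u, D` are composed of primes of `S`, `D ≤ u ≤ e ^ (C N)` and
`p ^ (n + m) ≤ e ^ (C N)`, `max (D, p ^ m) e ^ (-ε N) ≤ 1 + |⌊u x⌋ mod D - V y n m|`. -/
theorem result :
    (∀ (p : ℕ) [Fact p.Prime], ∀ y : ℤ_[p], y ^ 2 = 2 → ∀ b : ℕ, 2 ≤ b → ∀ C δ : ℝ, 0 < δ →
      ∃ U : ℕ, ∀ m : ℕ, U ≤ m → ∀ n n' m' : ℕ, (n : ℝ) ≤ C * m → (n' : ℝ) ≤ C * m →
        (m' : ℝ) ≤ C * m →
        (b : ℝ) ^ ((1 - δ) * (m : ℝ)) ≤ |(W b (√2) n m : ℝ) - V y n' m'|) ∧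
    (∀ (p : ℕ) [Fact p.Prime], ∀ (y : ℤ_[p]) (t₀ n₀ : ℤ), y ^ 2 = t₀ * y - n₀ →
      (∀ z : ℤ, z ^ 2 ≠ t₀ * z - n₀) → ¬ (p : ℤ) ∣ t₀ ^ 2 - 4 * n₀ →
      ∀ x : ℝ, IsAlgebraic ℚ x → Irrational x → ∀ b : ℕ, 2 ≤ b → ∀ C δ : ℝ, 0 < δ →
      ∃ U : ℕ, ∀ m : ℕ, U ≤ m → ∀ n n' m' : ℕ, (n : ℝ) ≤ C * m → (n' : ℝ) ≤ C * m →
        (m' : ℝ) ≤ C * m →
        (b : ℝ) ^ ((1 - δ) * (m : ℝ)) ≤ |(W b x n m : ℝ) - V y n' m'|) ∧
    (∀ (p : ℕ) [Fact p.Prime], ∀ (y : ℤ_[p]) (t₀ n₀ : ℤ), y ^ 2 = t₀ * y - n₀ →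
      (∀ z : ℤ, z ^ 2 ≠ t₀ * z - n₀) → ¬ (p : ℤ) ∣ t₀ ^ 2 - 4 * n₀ →
      ∀ x : ℝ, IsAlgebraic ℚ x → Irrational x →
      ∀ S : Finset ℕ, (∀ p ∈ S, p.Prime) → ∀ C ε : ℝ, 0 < ε →
      ∃ U : ℕ, ∀ N : ℕ, U ≤ N → ∀ u D n m : ℕ, SUnit S u → SUnit S D → D ≤ u →
        (u : ℝ) ≤ Real.exp (C * N) → (p : ℝ) ^ (n + m) ≤ Real.exp (C * N) →
        max (D : ℝ) ((p : ℝ) ^ m) * Real.exp (-(ε * N)) ≤
          1 + |(res u D x : ℝ) - V y n m|) := by
  refine ⟨?_, ?_, ?_⟩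
  · intro p _ y hy b hb C δ hδ
    have halg : IsAlgebraic ℚ (√2) := by
      refine ⟨Polynomial.X ^ 2 - Polynomial.C 2, ?_, ?_⟩
      · exact Polynomial.X_pow_sub_C_ne_zero (by norm_num) 2
      · simp
    exact Pool.Agent.U773.PA.final_padic_digits (t0 := 0) (n0 := -2) (by push_cast; rw [hy]; ring)
      (by
        intro z hz
        have h1 : z ^ 2 = 2 := by linarith
        have h2 : z < 2 := by nlinarith
        have h3 : -2 < z := by nlinarith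
        interval_cases z <;> omega)
      (Pool.Agent.U773.PA.two_ne hy) halg irrational_sqrt_two hb C δ hδ
  · intro p _ y t₀ n₀ hy hroot hΔ x hx hxi b hb C δ hδ
    exact Pool.Agent.U773.PA.final_padic_digits hy hroot hΔ hx hxi hb C δ hδ
  · intro p _ y t₀ n₀ hy hroot hΔ x hx hxi S hS C ε hε
    exact Pool.Agent.U773.PA.final_padic hy hroot hΔ hx hxi hS C ε hε

end Pool.Agent.Results.MP_7e9a3a_nt.CommonBlocksRealPadic
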