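import Pool.Agent.U363.EX.Basis

/-!
# Explicit exponents for `√2` in all odd bases, for roots, and for Eisenstein numbers

Let `x = a + ∑_{k ≥ 1} g_k b^(-k)` be any expansion of a real number with bounded integer digits
`g_k` (the usual digits, signed digits, ...), and count the places `k ≤ N` where a fixed linear
relation `q_0 g_k + … + q_m g_{k+m} = e` fails (`g_k = 0`, `g_{k+1} = g_k`, `g_{k+l} = g_k`, ...).

For `x` in a field with a ramified prime `p` not dividing `b` (and all primes above `p` ramified)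
the starting result `DigitRelations` gives at least `c N^δ` failures, with an unspecified `δ > 0`
which depends on `x`, on the base and on the relation. Here we determine exponents. For `√2` and
all odd bases `b` we get
* at least `c N^(1/3)` nonzero digits in every expansion with bounded integer digits;
* at least `c N^(1/(3 + v))` changes of the digit, where `2^v` is the exact power of `2` dividing
  `b - 1` (for instance `c N^(1/4)` in base `3`), and the same for every relation, where `2^v` is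
  the exact power of `2` in `q_0 + q_1 b + … + q_m b^m` (times `b - 1` if `e ≠ 0`).
Moreover the failures form an additive basis up to logarithmic errors: every `R` is within
`O(log R)` of `i_2 + (i_0 + i_1) / 2` with places `i_0, i_1, i_2` of nonzero digits (or `0`), and of
a similar sum of `v + 3` terms for a relation.
There are similar exponents for `D`-th roots of integers, for the roots of Eisenstein polynomials,
and for all numbers in the situation of `DigitRelations`; in the last case the exponent depends on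
the base and the relation only through the power of `p` dividing `q_0 + … + q_m b^m`.

Idea (for `√2`, `e = 0`). Let `P` be the set of the failures up to `N`, `K = |P|`, and let `U_R` be
the integers approximating `b^R Λ √2`, `Λ = ∑ q_j b^j`, `2^v ∥ Λ`. The sequence `U_R b^(-R)` in the
`2`-adic integers is constant on the intervals between the elements of `P`. For all places `R`
outside of a set `E` of `O(K^2)` places the identity `(∑ w_i b^(-i))^2 = 2 Λ^2` holds exactly for
the partial sums up to `R`. Modulo `2` the square is `∑ w_i z^(2i)`, so `U_h` is even unless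
`2h ∈ E`. Splitting off the even part (which jumps only at places in `P`) one gets in the same way
`U_h ≡ 0 mod 2^(j+1)` unless `2h ∈ E ∪ (P + O_j)`, where `O_j` is the exceptional set for `2^j`,
as long as `j ≤ v`; for `j = v + 1` the exact identity is impossible since `2 Λ^2` has an odd
valuation, so that all places are in `E ∪ (P + O_{v+1})`, a set of size `O(K^(v+3))`.
-/

set_option autoImplicit false

namespace Pool.Agent.Results.MP_7e9a3a_nt.ExplicitExponents

open Polynomial Finset Pool.Agent.U363.EX NumberField IntermediateField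

lemma periods_bound {d : ℕ} (hd : d % 4 = 2 ∨ d % 4 = 3) {b : ℕ} (hb : 2 ≤ b) (hb2 : Odd b)
    {l : ℕ} (hl : 1 ≤ l) (G : ℤ) : ∃ C : ℝ, 0 < C ∧ ∀ g : ℕ → ℤ, Expansion b G (Real.sqrt d) g →
      ∀ N : ℕ, (N : ℝ) ≤ C * (1 + (((Finset.Icc 1 N).filter (fun k => g (k + l) ≠ g k)).card : ℝ)) ^
        (3 + padicValNat 2 (b ^ l - 1)) := by
  set q : ℕ → ℤ := fun j => if j = l then 1 else if j = 0 then -1 else 0 with hq
  have hsum : ∀ F : ℕ → ℤ, ∑ j ∈ range (l + 1), q j * F j = F l - F 0 := by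
    intro F
    rw [Finset.sum_range_succ, Finset.sum_eq_single_of_mem 0 (by simp; omega)]
    · simp only [hq]
      rw [if_neg (by omega)]
      simp
      ring
    · intro j hj hj0
      rw [Finset.mem_range] at hj
      simp only [hq]
      rw [if_neg (by omega), if_neg hj0, zero_mul]
  have h1b : 1 < b ^ l := Nat.one_lt_pow (by omega) (by omega)
  have hΛ : (1 : ℤ) * ∑ j ∈ range (l + 1), q j * (b : ℤ) ^ j = ((b ^ l - 1 : ℕ) : ℤ) := by
    rw [hsum, one_mul]
    push_cast [Nat.cast_sub h1b.le]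
    ring
  have hne : ∑ j ∈ range (l + 1), q j * (b : ℤ) ^ j ≠ 0 := by
    intro h0
    rw [h0, mul_zero] at hΛ
    have : b ^ l - 1 = 0 := by exact_mod_cast hΛ.symm
    omega
  obtain ⟨C, hC, h⟩ := sqrt_bound hd hb hb2 l q 0 1 0 one_ne_zero (by ring) hne G
  refine ⟨C, hC, ?_⟩
  intro g hg N
  have h1 := h g hg N
  rw [hΛ, padicValInt.of_nat] at h1
  have h2 : fails g l q 0 N = ((Finset.Icc 1 N).filter (fun k => g (k + l) ≠ g k)).card := by
    unfold fails
    congr 1
    apply Finset.filter_congr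
    intro k _
    rw [hsum, Nat.add_zero, sub_ne_zero]
  rw [← h2]
  exact h1

lemma nonzero_bound {d : ℕ} (hd : d % 4 = 2 ∨ d % 4 = 3) {b : ℕ} (hb : 2 ≤ b) (hb2 : Odd b)
    (G : ℤ) : ∃ C : ℝ, 0 < C ∧ ∀ g : ℕ → ℤ, Expansion b G (Real.sqrt d) g →
      ∀ N : ℕ, (N : ℝ) ≤ C * (1 + (((Finset.Icc 1 N).filter (fun k => g k ≠ 0)).card : ℝ)) ^ 3 := by
  obtain ⟨C, hC, h⟩ := sqrt_bound hd hb hb2 0 (fun _ => 1) 0 1 0 one_ne_zero (by ring)
    (by simp) G
  refine ⟨C, hC, ?_⟩
  intro g hg N
  have h1 := h g hg N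
  have h2 : fails g 0 (fun _ => 1) 0 N = ((Finset.Icc 1 N).filter (fun k => g k ≠ 0)).card := by
    unfold fails
    congr 1
    apply Finset.filter_congr
    intro k _
    simp
  rw [h2] at h1
  simpa using h1

/-- **Explicit exponents.** All bounds are for all expansions `g` of `x` in base `b` with integer
digits of absolute value at most `G`, with a constant `C` which does not depend on the expansion.

(0) The usual digits of a real number form such an expansion, with `G = b - 1`.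

(1) Let `d ≡ 2` or `3 (mod 4)` (for instance `d = 2`) and let `b` be odd. Among the first `N` digits
of an expansion of `√d` there are at least `c N^(1/3) - 1` nonzero ones.

(2) Let `l ≥ 1`. At least `c N^(1/(3+v)) - 1` of the first `N` digits of `√d` are different from the
digit `l` places later, where `2^v` is the exact power of `2` in `b^l - 1`.

(3) The relation `q_0 g_k + … + q_m g_{k+m} = e` with `q_0 + q_1 b + … + q_m b^m ≠ 0` fails for at
least `c N^(1/(3+v)) - 1` of the `1 ≤ k ≤ N`, where `2^v` is the exact power of `2` in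
`W (q_0 + … + q_m b^m)` and `W ≠ 0` is any integer with `(b - 1) ∣ W e` (`W = 1` if `e = 0`).

(3') For the relations in (3) every natural number `R` satisfies
`2^(v+1) R ≤ i_0 + i_1 + 2 i_2 + 4 i_3 + … + 2^(v+1) i_(v+2) ≤ 2^(v+1) R + A log (R + 2)`,
where each `i_j` is `0` or a place `≥ 1` at which the relation fails. The constant `A` does not
depend on the expansion.

(4) Let `x^D = d`, and let `p` be a prime not dividing `b` such that the exponent of `p` in `d` is
not divisible by `D`. The same for `x`, with the exponent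
`1 / (D + (⌊ord_p(d) / D⌋ + v + 1) (p^s - 1))`, where `p^s ≥ D` and `p^v` is the exact power of `p`
in `W (q_0 + … + q_m b^m)`.

(5) Let `θ` be a root of an Eisenstein polynomial at `p` of degree `D ≥ 2`, `p` not dividing `b`, and
let `W (q_0 + … + q_m b^m) x = Λ θ + a` with integers `Λ ≠ 0` and `a`. The same for `x`, with the
exponent `1 / (D + (v + 1) (p^s - 1))`, where `p^s ≥ D` and `p^v` is the exact power of `p` in `Λ`.

(6) Let `x` be algebraic of degree `D`, and suppose that `ℚ(x)` contains (an image of) a number field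
`L` all of whose primes above `p` are ramified. There is a number `κ`, which depends only on `x`,
`L` and `p`, such that the same holds in all bases `b` not divisible by `p`, with the exponent
`1 / ((D - 1) (2 + (κ + (D - 1) v + 1) (p^s - 1)))`, where `p^s ≥ [L : ℚ]` and `p^v` is the exact
power of `p` in `W (q_0 + … + q_m b^m)`. -/
theorem result :
    (∀ (b : ℕ), 2 ≤ b → ∀ x : ℝ,
      Expansion b ((b : ℤ) - 1) x (fun k => ⌊x * (b : ℝ) ^ k⌋ % (b : ℤ))) ∧
    (∀ d : ℕ, (d % 4 = 2 ∨ d % 4 = 3) → ∀ b : ℕ, 2 ≤ b → Odd b → ∀ G : ℤ,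
      (∃ C : ℝ, 0 < C ∧ ∀ g : ℕ → ℤ, Expansion b G (Real.sqrt d) g → ∀ N : ℕ,
        (N : ℝ) ≤ C * (1 + (((Finset.Icc 1 N).filter (fun k => g k ≠ 0)).card : ℝ)) ^ 3) ∧
      (∀ l : ℕ, 1 ≤ l → ∃ C : ℝ, 0 < C ∧ ∀ g : ℕ → ℤ, Expansion b G (Real.sqrt d) g → ∀ N : ℕ,
        (N : ℝ) ≤ C * (1 + (((Finset.Icc 1 N).filter (fun k => g (k + l) ≠ g k)).card : ℝ)) ^
          (3 + padicValNat 2 (b ^ l - 1)))) ∧
    (∀ d : ℕ, (d % 4 = 2 ∨ d % 4 = 3) → ∀ b : ℕ, 2 ≤ b → Odd b →
      ∀ (m : ℕ) (q : ℕ → ℤ) (e W v : ℤ), W ≠ 0 → W * e = ((b : ℤ) - 1) * v →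
      ∑ j ∈ range (m + 1), q j * (b : ℤ) ^ j ≠ 0 →
      Bound b (Real.sqrt d) m q e
        (3 + padicValInt 2 (W * ∑ j ∈ range (m + 1), q j * (b : ℤ) ^ j)) ∧
      ∀ G : ℤ, ∃ A : ℝ, 0 < A ∧ ∀ g : ℕ → ℤ, Expansion b G (Real.sqrt d) g → ∀ R : ℕ,
        ∃ (i : ℕ → ℕ) (δ : ℕ), (∀ t, i t = 0 ∨ (1 ≤ i t ∧
          ∑ j ∈ range (m + 1), q j * g (i t + j) ≠ e)) ∧ (δ : ℝ) ≤ A * Real.log (R + 2) ∧
          2 ^ (padicValInt 2 (W * ∑ j ∈ range (m + 1), q j * (b : ℤ) ^ j) + 1) * R + δ = i 0 +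
          ∑ t ∈ range (padicValInt 2 (W * ∑ j ∈ range (m + 1), q j * (b : ℤ) ^ j) + 2),
            2 ^ t * i (t + 1)) ∧
    (∀ p D d s : ℕ, p.Prime → 2 ≤ D → d ≠ 0 → ¬ D ∣ padicValNat p d → D ≤ p ^ s →
      ∀ b : ℕ, 2 ≤ b → ¬ p ∣ b → ∀ x : ℝ, x ^ D = d →
      ∀ (m : ℕ) (q : ℕ → ℤ) (e W v : ℤ), W ≠ 0 → W * e = ((b : ℤ) - 1) * v →
      ∑ j ∈ range (m + 1), q j * (b : ℤ) ^ j ≠ 0 →
      Bound b x m q e (D + (padicValNat p d / D +
        padicValInt p (W * ∑ j ∈ range (m + 1), q j * (b : ℤ) ^ j) + 1) * (p ^ s - 1))) ∧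
    (∀ (p D s : ℕ) (f : ℤ[X]), p.Prime → f.Monic → f.natDegree = D → 2 ≤ D →
      (∀ m, m < D → (p : ℤ) ∣ f.coeff m) → ¬ (p : ℤ) ^ 2 ∣ f.coeff 0 → D ≤ p ^ s →
      ∀ θ : ℝ, aeval θ f = 0 → ∀ b : ℕ, 2 ≤ b → ¬ p ∣ b →
      ∀ (x : ℝ) (m : ℕ) (q : ℕ → ℤ) (e W v Λ a : ℤ), W ≠ 0 → W * e = ((b : ℤ) - 1) * v → Λ ≠ 0 →
      (W * ∑ j ∈ range (m + 1), q j * (b : ℝ) ^ j) * x = Λ * θ + a →
      Bound b x m q e (D + (padicValInt p Λ + 1) * (p ^ s - 1))) ∧
    (∀ x : ℝ, IsAlgebraic ℚ x → ∀ (L : Type) [Field L] [NumberField L] (_ : L →+* ℚ⟮x⟯)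
      (p : ℕ), p.Prime →
      (∀ P : Ideal (𝓞 L), P.IsPrime → (p : 𝓞 L) ∈ P → (p : 𝓞 L) ∈ P ^ 2) →
      ∃ κ : ℕ, ∀ s : ℕ, Module.finrank ℚ L ≤ p ^ s → ∀ b : ℕ, 2 ≤ b → ¬ p ∣ b →
      ∀ (m : ℕ) (q : ℕ → ℤ) (e W v : ℤ), W ≠ 0 → W * e = ((b : ℤ) - 1) * v →
      ∑ j ∈ range (m + 1), q j * (b : ℤ) ^ j ≠ 0 →
      Bound b x m q e (((minpoly ℚ x).natDegree - 1) * (2 + (κ + ((minpoly ℚ x).natDegree - 1) *
        padicValInt p (W * ∑ j ∈ range (m + 1), q j * (b : ℤ) ^ j) + 1) * (p ^ s - 1)))) := by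
  refine ⟨fun b hb x => expansion_usual b hb x, ?_, ?_, ?_, ?_, ?_⟩
  · intro d hd b hb hb2 G
    exact ⟨nonzero_bound hd hb hb2 G, fun l hl => periods_bound hd hb hb2 hl G⟩
  · intro d hd b hb hb2 m q e W v hW hv hq
    exact ⟨sqrt_bound hd hb hb2 m q e W v hW hv hq,
      fun G => sqrt_basis hd hb hb2 m q e W v hW hv hq G⟩
  · intro p D d s hp hD hd hpd hs b hb hpb x hx m q e W v hW hv hq
    exact root_bound hp hD hd hpd hs hb hpb x hx m q e W v hW hv hq
  · intro p D s f hp hf hD h2 hdvd hnot hs θ hθ b hb hpb x m q e W v Λ a hW hv hΛ hx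
    exact eisenstein_bound hp hf hD h2 hdvd hnot hs hb hpb θ hθ x m q e W v Λ a hW hv hΛ hx
  · intro x halg L _ _ φ p hp h
    exact field_bound x halg L φ p hp h

end Pool.Agent.Results.MP_7e9a3a_nt.ExplicitExponents
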