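import Mathlib
import Pool.Agent.U670.JBDigits

/-!
# Joint blocks of digits of several powers of `e`

For `d` distinct powers `e^{κ_1}, …, e^{κ_d}` (for instance `e, e², …, e^d`) and a base `b` let
`P(n)` be the number of different `d × n` arrays of digits which stand at the places
`i + 1, …, i + n` of the base `b` expansions of the `d` numbers, `i = 0, 1, 2, …`.  If the numbers
were jointly normal this would be `b^(d n)`.  We show that the lower limit of `P(n) / n` is at least
`d + 1 / (d^3 + 3 d^2 + 4 d + 3)`, uniformly in the base.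

Proof.  A repetition of a `d × n` array gives simultaneous rational approximations with one common
denominator `b^j - b^i`; the exponent of simultaneous approximation of the powers is `1 / d`, so an
array which starts after the `j`-th digit and occurs earlier has `d n ≤ (1 + ε) j + O(1)`.  This
alone gives `P(n) ≥ (d - ε) n`.  The gain comes from combinatorics on words
(`Pool.Agent.U670.JBWord`): three consecutive maximal repetitions of nearly the same length would
contain two with short periods which overlap too much.
-/

set_option autoImplicit false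

namespace Pool.Agent.Results.MP_7e9a3a_nt.JointBlocksOfPowers

/-- The number of different arrays formed by the digits at `n` consecutive places (after the point)
of the base `b` expansions of `x_1, …, x_d`. -/
noncomputable def jointBlocks (b : ℕ) [NeZero b] {d : ℕ} (x : Fin d → ℝ) (n : ℕ) : ℕ :=
  (Set.range fun i : ℕ => fun (k : Fin n) (j : Fin d) =>
    Real.digits (Int.fract (x j)) b (i + k)).ncard

/-- For every `C < d + 1 / (d^3 + 3 d^2 + 4 d + 3)` and all `n ≥ n₀`, with `n₀` independent of the
base, there are more than `C n` different joint blocks of length `n`. -/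
def ManyJointBlocks (d : ℕ) (x : Fin d → ℝ) : Prop :=
  ∀ C : ℝ, C < d + 1 / ((d : ℝ) ^ 3 + 3 * (d : ℝ) ^ 2 + 4 * d + 3) →
    ∃ n₀ : ℕ, ∀ (b : ℕ) [NeZero b], 2 ≤ b → ∀ n : ℕ, n₀ ≤ n → C * n < jointBlocks b x n

/-- (1) Let `κ_1, …, κ_d` be distinct nonzero integers, `d ≥ 1` (for instance `κ_j = j`). In every
base `b ≥ 2` the number of different joint blocks of `n` digits of `e^{κ_1}, …, e^{κ_d}` has
lower limit `P(n) / n ≥ d + 1 / (d^3 + 3 d^2 + 4 d + 3)`, uniformly in `b`.

(2) The same holds for all real numbers `x_1, …, x_d` whose exponent of simultaneous rational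
approximation is `1 / d`. -/
theorem result (d : ℕ) (hd : 1 ≤ d) :
    (∀ κ : Fin d → ℤ, Function.Injective κ → (∀ j, κ j ≠ 0) →
      ManyJointBlocks d fun j => Real.exp (κ j)) ∧
    (∀ x : Fin d → ℝ, (∀ ε : ℝ, 0 < ε → ∃ c : ℝ, 0 < c ∧ ∀ q : ℕ, 1 ≤ q → ∀ p : Fin d → ℤ,
      ∃ j, c ≤ (q : ℝ) ^ (1 / (d : ℝ) + ε) * |q * x j - p j|) → ManyJointBlocks d x) :=
  ⟨fun κ hκ h0 C hC => Pool.Agent.U670.JB.main hd _ (Pool.Agent.U670.JB.sim_of_normal hd _
      (Pool.Agent.TH768.DG.normal_exp κ hκ h0)) C hC,
    fun x hx C hC => Pool.Agent.U670.JB.main hd x hx C hC⟩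

end Pool.Agent.Results.MP_7e9a3a_nt.JointBlocksOfPowers
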