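import Mathlib
import Pool.Agent.U55.PB.Fin

set_option autoImplicit false

/-!
# Predicting the digits of `e` and `π` in two multiplicatively independent bases

A word `D` of integers is cut into simple pieces of order `m` by a set `E` of places, if every
stretch of `D` without a place of `E` satisfies a linear recurrence over `ℚ` of order `m` (the
recurrence depends on the stretch).  For instance a predictor (finite automaton) with `m` states
which reads `D` and announces the next letter cuts `D` in this way at its wrong predictions.

Let `S` be an infinite set of integers.  A real number is called *predictable along `S`* in base `b`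
if its digits differ from a word of linear block complexity by a sequence whose first `M` terms,
for every `M ∈ S`, are cut at `O(log M)` places into simple pieces of order `O(M ^ θ)`, for some
`θ < 1`.

We prove: for `z = e`, `π`, `log q`, or any transcendental number which is not a U-number, there is an
integer `c` such that for all bases `b` multiplicatively independent of `c`, the number `z` is
transcendental over the field generated by the numbers predictable in bases multiplicatively
dependent on `b`.  Explicitly: for two multiplicatively independent bases and any `θ < 1`, `A`, one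
of two predictors with `M ^ θ` states which work on the digits of `z` in the two bases (minus two
words of linear complexity) makes more than `A log M` errors among the first `M`, for all large `M`.
-/

namespace Pool.Agent.Results.MP_7e9a3a_nt.PredictorsInIndependentBases

/-- the `k`-th digit after the point of `x` in base `b` (`k = 0` is the first one) -/
noncomputable def digit (b : ℕ) (x : ℝ) (k : ℕ) : ℤ := ⌊(b : ℝ) ^ (k + 1) * x⌋ % b

/-- the number of different blocks of `n` consecutive letters of the word `w` -/
noncomputable def blocks (w : ℕ → ℤ) (n : ℕ) : ℕ :=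
  (Set.range fun i : ℕ => fun j : Fin n => w (i + j)).ncard

/-- a word over the alphabet `{0, ..., b - 1}` with at most `C n` different blocks of length `n`
for every `n ≥ 1` -/
def Simple (b : ℕ) (C : ℝ) (w : ℕ → ℤ) : Prop :=
  (∀ k, 0 ≤ w k ∧ w k < b) ∧ ∀ n : ℕ, 1 ≤ n → (blocks w n : ℝ) ≤ C * n

/-- the terms `D_u, …, D_{v-1}` satisfy a linear recurrence over `ℚ` of order `m` -/
def Recurrent (D : ℕ → ℤ) (m u v : ℕ) : Prop := ∃ c : ℕ → ℚ, ∀ i, u ≤ i → i + m < v →
  (D (i + m) : ℚ) = ∑ l ∈ Finset.range m, c l * (D (i + l) : ℚ)

/-- There is a set `E` of at most `r` places such that every stretch `D_u, …, D_{v-1}` of the first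
`M` terms of `D` which contains no place of `E` satisfies a linear recurrence over `ℚ` of order `m`
(the recurrence may depend on the stretch). -/
def Pieces (D : ℕ → ℤ) (M m r : ℕ) : Prop := ∃ E : Finset ℕ, E.card ≤ r ∧
  ∀ u v, u ≤ v → v ≤ M → (∀ k ∈ E, k < u ∨ v ≤ k) → Recurrent D m u v

/-- A predictor with `K` states. In the state `s` it announces the letter `out s`; then it reads
the true letter `d` and moves to the state `step s d`. -/
structure Predictor (K : ℕ) where
  /-- the announced letter -/
  out : Fin K → ℤ
  /-- the next state -/
  step : Fin K → ℤ → Fin K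
  /-- the initial state -/
  start : Fin K

/-- the state before reading the letter with index `k` of the word `D` -/
def Predictor.state {K : ℕ} (P : Predictor K) (D : ℕ → ℤ) : ℕ → Fin K
  | 0 => P.start
  | k + 1 => P.step (P.state D k) (D k)

/-- the number of wrong predictions of the predictor among the first `M` letters of `D` -/
def Predictor.errors {K : ℕ} (P : Predictor K) (D : ℕ → ℤ) (M : ℕ) : ℕ :=
  ((Finset.range M).filter fun k => P.out (P.state D k) ≠ D k).card

/-- `x` is predictable along `S` in base `b`: there are a word `w` of linear block complexity over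
`{0, …, b - 1}`, a constant `C` and `θ < 1` such that for all `M ∈ S` the first `M` differences
between the digits of `x` and the letters of `w` are cut by at most `C (1 + log M)` places into
pieces which satisfy linear recurrences of order at most `C M ^ θ` -/
def Predictable (S : Set ℕ) (b : ℕ) (x : ℝ) : Prop := ∃ (w : ℕ → ℤ) (C θ : ℝ), θ < 1 ∧
  Simple b C w ∧ ∀ M ∈ S, ∃ m r : ℕ, (m : ℝ) ≤ C * (M : ℝ) ^ θ ∧
    (r : ℝ) ≤ C * (1 + Real.log M) ∧ Pieces (fun k => digit b x k - w k) M m r

/-- the field generated by all real numbers which are predictable along `S` in some base `b ∈ A` -/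
noncomputable def predictableField (S A : Set ℕ) : Subfield ℝ :=
  Subfield.closure {x | ∃ b ∈ A, Predictable S b x}

/-- `a` and `b` are multiplicatively independent -/
def Independent (a b : ℕ) : Prop := ∀ k l : ℕ, a ^ k = b ^ l → k = 0 ∧ l = 0

/-- `x` is algebraic over the ring `ℤ[z]`, equivalently over the field `ℚ(z)` -/
def AlgebraicOver (z x : ℝ) : Prop := IsAlgebraic (Algebra.adjoin ℤ ({z} : Set ℝ)) x

/-- the height of an integer polynomial: the largest absolute value of a coefficient -/
def height (P : Polynomial ℤ) : ℕ := P.support.sup fun i => (P.coeff i).natAbs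

/-- Mahler's U-numbers: for some degree `d` and every exponent `w` there are infinitely many
`P ∈ ℤ[X]` of degree at most `d` with `0 < |P(x)| ≤ (height P) ^ (-w)` -/
def UNumber (x : ℝ) : Prop :=
  ∃ d : ℕ, ∀ w : ℕ, {P : Polynomial ℤ | P.natDegree ≤ d ∧ 0 < |Polynomial.aeval x P| ∧
    |Polynomial.aeval x P| * (height P : ℝ) ^ w ≤ 1}.Infinite

/-- `z` is transcendental over the field `K`, and no irrational number algebraic over `ℚ(z)` is in
`K` -/
def Free (K : Subfield ℝ) (z : ℝ) : Prop :=
  Transcendental K z ∧ ∀ x : ℝ, Irrational x → AlgebraicOver z x → x ∉ K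

lemma state_eq {K : ℕ} (P : Predictor K) (D : ℕ → ℤ) (k : ℕ) :
    P.state D k = Pool.Agent.R473.TB.st P.step P.start D k := by
  induction k with
  | zero => rfl
  | succ k ih => rw [Predictor.state, Pool.Agent.R473.TB.st, ih]

lemma errors_eq {K : ℕ} (P : Predictor K) (D : ℕ → ℤ) (M : ℕ) :
    P.errors D M = Pool.Agent.R473.TB.errs P.out P.step P.start D M := by
  unfold Predictor.errors Pool.Agent.R473.TB.errs
  simp only [state_eq]

lemma pieces_errors {K : ℕ} (P : Predictor K) (D : ℕ → ℤ) (M : ℕ) :
    Pieces D M K (P.errors D M) := by
  rw [errors_eq]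
  exact Pool.Agent.U55.PB.cut_st P.out P.step P.start D M

lemma pred_eq : Predictable = Pool.Agent.U55.PB.Pred := by
  funext S b x
  apply propext
  constructor
  · rintro ⟨w, C, θ, h1, ⟨h2, h3⟩, h4⟩
    exact ⟨w, C, θ, h1, h2, h3, h4⟩
  · rintro ⟨w, C, θ, h1, h2, h3, h4⟩
    exact ⟨w, C, θ, h1, ⟨h2, h3⟩, h4⟩

lemma field_eq (S A : Set ℕ) : predictableField S A = Pool.Agent.U55.PB.PF S A := by
  unfold predictableField Pool.Agent.U55.PB.PF
  rw [pred_eq]

/-- Let `z` be `e`, `π`, the logarithm of a positive rational number `q ≠ 1` or any transcendental real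
number which is not a U-number.

**(1)** For every infinite set `S` of integers there is an integer `c ≥ 2` such that for every base
`b ≥ 2` multiplicatively independent of `c`, the number `z` is transcendental over the field
generated by all real numbers which are predictable along `S` in base `b` or in some base which is
multiplicatively dependent on `b`, and no irrational number algebraic over `ℚ(z)` is in this field.

**(2)** Let `x` and `y` be irrational real numbers which are algebraic over `ℚ(z)` (for instance
`x = y = z`), let `a, b ≥ 2` be multiplicatively independent integers, let `u` and `v` be words of at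
most linear block complexity over `{0, …, a - 1}` and `{0, …, b - 1}`, and let `θ < 1` and `A` be
real numbers. For every sufficiently large `M`: if the first `M` differences between the digits of
`x` in base `a` and the letters of `u` are cut by `r` places, and the first `M` differences between
the digits of `y` in base `b` and the letters of `v` by `s` places, into pieces which satisfy linear
recurrences of order at most `M ^ θ`, then `r + s > A log M`; in particular two predictors with at
most `M ^ θ` states which read these differences make together more than `A log M` wrong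
predictions among the first `M`. -/
theorem result (z : ℝ) (hz : z = Real.exp 1 ∨ z = Real.pi ∨
      (∃ q : ℚ, 0 < q ∧ q ≠ 1 ∧ z = Real.log q) ∨ (Transcendental ℚ z ∧ ¬ UNumber z)) :
    (∀ S : Set ℕ, S.Infinite → ∃ c : ℕ, 2 ≤ c ∧ ∀ b : ℕ, 2 ≤ b → Independent b c →
      Free (predictableField S {d | 2 ≤ d ∧ ¬ Independent d b}) z) ∧
    (∀ x y : ℝ, Irrational x → Irrational y → AlgebraicOver z x → AlgebraicOver z y →
      ∀ a b : ℕ, 2 ≤ a → 2 ≤ b → Independent a b → ∀ (C : ℝ) (u v : ℕ → ℤ),
      Simple a C u → Simple b C v → ∀ θ : ℝ, θ < 1 → ∀ A : ℝ, ∃ M₀ : ℕ, ∀ M ≥ M₀,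
        (∀ m m' r s : ℕ, (m : ℝ) ≤ (M : ℝ) ^ θ → (m' : ℝ) ≤ (M : ℝ) ^ θ →
          Pieces (fun k => digit a x k - u k) M m r →
          Pieces (fun k => digit b y k - v k) M m' s → A * Real.log M < r + s) ∧
        ∀ K L : ℕ, (K : ℝ) ≤ (M : ℝ) ^ θ → (L : ℝ) ≤ (M : ℝ) ^ θ →
          ∀ (P : Predictor K) (Q : Predictor L),
          A * Real.log M < P.errors (fun k => digit a x k - u k) M +
            Q.errors (fun k => digit b y k - v k) M) := by
  have hm : Pool.Agent.TH456.TM.MeasT (z : ℂ) := by
    rcases hz with h | h | h | ⟨h1, h2⟩
    · exact Pool.Agent.TH796.AL.Ai.measT_of (Or.inl h)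
    · exact Pool.Agent.TH796.AL.Ai.measT_of (Or.inr (Or.inl h))
    · exact Pool.Agent.TH796.AL.Ai.measT_of (Or.inr (Or.inr h))
    · exact Pool.Agent.TH796.AL.Ai.meas_of_not_unumber h1 h2
  have ht : Transcendental ℚ z := Pool.Agent.TH796.AL.Alg.transc_of_measT hm
  have hU : ¬ Pool.Agent.TH796.AL.Ai.UNumber z := Pool.Agent.TH796.AL.Ai.not_unumber hm
  refine ⟨fun S hS => ?_, fun x y hx hy hxz hyz a b ha hb hab C u v hu hv θ hθ A => ?_⟩
  · obtain ⟨c, hc, h⟩ := Pool.Agent.U55.PB.class_PF ht hU hS
    refine ⟨c, hc, fun b hb hbc => ?_⟩
    rw [field_eq]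
    exact h b hb hbc
  · obtain ⟨M0, h⟩ := Pool.Agent.U55.PB.two_main ht hU hx hy hxz hyz ha hb hab hu.1 hv.1 hu.2 hv.2
      hθ A
    refine ⟨M0, fun M hM => ⟨fun m m' r s hm1 hm2 hr hs => h M hM m m' r s hm1 hm2 hr hs,
      fun K L hK hL P Q => h M hM K L _ _ hK hL (pieces_errors P _ M) (pieces_errors Q _ M)⟩⟩

end Pool.Agent.Results.MP_7e9a3a_nt.PredictorsInIndependentBases
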